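import Pool.Agent.N190.AM.Main

/-!
# Strings of the Lefschetz operator
-/

set_option autoImplicit false

open Finset

namespace Pool.Agent.N190.GS

open Pool.Agent.H914

variable {K : Type*} [Field K] {U : Type*} [AddCommGroup U] [Module K U]
  {gr : ℕ → Submodule K U} {m : ℕ} {M R : Module.End K U}

lemma prim_zero {b : ℕ} {p : U} (hp : (M ^ (m - b + 1)) p = 0) {a : ℕ} (ha : m - b < a) :
    (M ^ a) p = 0 := by
  obtain ⟨c, rfl⟩ := Nat.exists_eq_add_of_le (show m - b + 1 ≤ a by omega)
  rw [add_comm, pow_add, Module.End.mul_apply, hp, map_zero]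

lemma rho_apply (hR : IsLam gr m M R) {b : ℕ} (hb : b ≤ m) {p : U} (hpb : p ∈ gr b)
    (hp : (M ^ (m - b + 1)) p = 0) {a : ℕ} (ha : a ≤ m - b) :
    R ((M ^ a) p) = if a = 0 then 0 else (M ^ (a - 1)) p := by
  rcases Nat.eq_zero_or_pos a with rfl | h
  · rw [if_pos rfl, pow_zero, Module.End.one_apply]
    exact (hR b hb p hpb hp).1
  · rw [if_neg (by omega)]
    have := (hR b hb p hpb hp).2 (a - 1) (by omega)
    rwa [show a - 1 + 1 = a by omega] at this

lemma rho_pow (hR : IsLam gr m M R) {b : ℕ} (hb : b ≤ m) {p : U} (hpb : p ∈ gr b)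
    (hp : (M ^ (m - b + 1)) p = 0) {a : ℕ} (ha : a ≤ m - b) (r : ℕ) :
    (R ^ r) ((M ^ a) p) = if r ≤ a then (M ^ (a - r)) p else 0 := by
  induction r with
  | zero => rw [pow_zero, Module.End.one_apply, if_pos (Nat.zero_le _), Nat.sub_zero]
  | succ r ih =>
    rw [pow_succ', Module.End.mul_apply, ih]
    split_ifs with h1 h2 h2
    · rw [rho_apply hR hb hpb hp (by omega), if_neg (by omega)]
      congr 2
    · rw [rho_apply hR hb hpb hp (by omega), if_pos (by omega)]
    · omega
    · rw [map_zero]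

variable (h : DirectSum.IsInternal gr)

/-- The operator which sends the primitive classes `p` of degree `m - j` to `M ^ j p` and kills the
other members of the strings. -/
noncomputable def bot (m : ℕ) (M R : Module.End K U) (j : ℕ) : Module.End K U :=
  M ^ j * (proj h (m - j) * (1 - M * R))

/-- The projector onto the classes of degree `m + j` killed by `M`. -/
noncomputable def top (m : ℕ) (M R : Module.End K U) (j : ℕ) : Module.End K U :=
  (1 - R * M) * proj h (m + j)

lemma mem_pow (hM : IsHom gr 2 M) {b : ℕ} {p : U} (hpb : p ∈ gr b) (a : ℕ) :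
    (M ^ a) p ∈ gr (b + 2 * a) := by
  have h1 := hM.pow a (b : ℤ) p (by rw [grZ_natCast]; exact hpb)
  rwa [show (b : ℤ) + a * 2 = ((b + 2 * a : ℕ) : ℤ) by push_cast; ring, grZ_natCast] at h1

lemma sub_apply_prim (hR : IsLam gr m M R) {b : ℕ} (hb : b ≤ m) {p : U} (hpb : p ∈ gr b)
    (hp : (M ^ (m - b + 1)) p = 0) (a : ℕ) :
    (1 - M * R) ((M ^ a) p) = if a = 0 then p else 0 := by
  rcases Nat.lt_or_ge (m - b) a with ha | ha
  · rw [prim_zero hp ha, map_zero, if_neg (by omega)]
  rw [LinearMap.sub_apply, Module.End.one_apply, Module.End.mul_apply,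
    rho_apply hR hb hpb hp ha]
  split_ifs with h0
  · rw [h0, map_zero, sub_zero, pow_zero, Module.End.one_apply]
  · rw [← Module.End.mul_apply, ← pow_succ', show a - 1 + 1 = a by omega, sub_self]

lemma bot_apply (hR : IsLam gr m M R) {b : ℕ} (hb : b ≤ m) {p : U} (hpb : p ∈ gr b)
    (hp : (M ^ (m - b + 1)) p = 0) (a j : ℕ) :
    bot h m M R j ((M ^ a) p) = if a = 0 ∧ b = m - j then (M ^ j) p else 0 := by
  rw [bot, Module.End.mul_apply, Module.End.mul_apply, sub_apply_prim hR hb hpb hp]
  by_cases ha : a = 0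
  · rw [if_pos ha]
    by_cases hbj : b = m - j
    · rw [if_pos ⟨ha, hbj⟩, proj_same h (hbj ▸ hpb)]
    · rw [if_neg (fun h' => hbj h'.2), proj_ne h hpb hbj, map_zero]
  · rw [if_neg ha, if_neg (fun h' => ha h'.1), map_zero, map_zero]

lemma one_sub_apply (hR : IsLam gr m M R) {b : ℕ} (hb : b ≤ m) {p : U} (hpb : p ∈ gr b)
    (hp : (M ^ (m - b + 1)) p = 0) (a : ℕ) :
    (1 - R * M) ((M ^ a) p) = if a = m - b then (M ^ a) p else 0 := by
  rw [LinearMap.sub_apply, Module.End.one_apply, Module.End.mul_apply, ← Module.End.mul_apply M,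
    ← pow_succ']
  rcases Nat.lt_trichotomy a (m - b) with ha | ha | ha
  · rw [rho_apply hR hb hpb hp (by omega), if_neg (by omega), Nat.add_sub_cancel, sub_self,
      if_neg (by omega)]
  · rw [prim_zero hp (show m - b < a + 1 by omega), map_zero, sub_zero, if_pos ha]
  · rw [prim_zero hp (show m - b < a + 1 by omega), map_zero, sub_zero, prim_zero hp ha,
      if_neg (by omega)]

lemma top_apply (hM : IsHom gr 2 M) (hR : IsLam gr m M R) {b : ℕ} (hb : b ≤ m) {p : U}
    (hpb : p ∈ gr b) (hp : (M ^ (m - b + 1)) p = 0) (a : ℕ) {j : ℕ} (hj : j ≤ m) :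
    top h m M R j ((M ^ a) p) = if a = m - b ∧ b = m - j then (M ^ j) p else 0 := by
  rw [top, Module.End.mul_apply]
  by_cases hd : b + 2 * a = m + j
  · rw [proj_same h (hd ▸ mem_pow hM hpb a), one_sub_apply hR hb hpb hp]
    by_cases ha : a = m - b
    · rw [if_pos ha, if_pos ⟨ha, by omega⟩]
      congr 2
      omega
    · rw [if_neg ha, if_neg (fun h' => ha h'.1)]
  · rw [proj_ne h (mem_pow hM hpb a) hd, map_zero, if_neg]
    rintro ⟨h1, h2⟩
    omega

variable (hM : IsHom gr 2 M) (hbd : ∀ i, 2 * m + 1 ≤ i → gr i = ⊥) (hHL : HardLef gr m M)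
  (hR : IsLam gr m M R)
include hM hbd hHL hR

omit hR in
lemma end_ext {A B : Module.End K U} (h : DirectSum.IsInternal gr)
    (hAB : ∀ b ≤ m, ∀ p ∈ gr b, (M ^ (m - b + 1)) p = 0 → ∀ a ≤ m - b,
      A ((M ^ a) p) = B ((M ^ a) p)) : A = B := by
  apply LinearMap.ext
  intro x
  refine lef_induction' h hM hbd hHL (p := fun x => A x = B x) ?_ ?_ x
  · intro a b ha hb
    rw [map_add, map_add, ha, hb]
  · intro b hb p hp h0 a
    rcases Nat.lt_or_ge (m - b) a with ha | ha
    · rw [prim_zero h0 ha, map_zero, map_zero]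
    · exact hAB b hb p hp h0 a ha

lemma bot_mul (j : ℕ) : bot h m M R j * M = 0 := by
  refine end_ext hM hbd hHL h fun b hb p hpb hp a _ => ?_
  rw [Module.End.mul_apply, ← Module.End.mul_apply M, ← pow_succ', bot_apply h hR hb hpb hp,
    if_neg (by omega), LinearMap.zero_apply]

lemma bot_rho {j : ℕ} (hj : j ≤ m) (r : ℕ) : bot h m M R j * R ^ (r + 1) * M =
    bot h m M R j * R ^ r - if r = j then top h m M R j else 0 := by
  refine end_ext hM hbd hHL h fun b hb p hpb hp a ha => ?_
  rw [Module.End.mul_apply, Module.End.mul_apply, ← Module.End.mul_apply M, ← pow_succ',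
    LinearMap.sub_apply, Module.End.mul_apply, rho_pow hR hb hpb hp ha]
  have e1 : (if r = j then top h m M R j else 0 : Module.End K U) ((M ^ a) p) =
      if r = j then (if a = m - b ∧ b = m - j then (M ^ j) p else 0) else 0 := by
    split_ifs with h1 h2
    · rw [top_apply h hM hR hb hpb hp a hj, if_pos h2]
    · rw [top_apply h hM hR hb hpb hp a hj, if_neg h2]
    · rw [LinearMap.zero_apply]
  rw [e1]
  rcases Nat.lt_or_ge a (m - b) with h1 | h1
  · rw [rho_pow hR hb hpb hp (by omega)]
    rw [if_neg (show ¬ (a = m - b ∧ b = m - j) by omega), ite_self, sub_zero]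
    by_cases hra : r ≤ a
    · rw [if_pos (by omega), if_pos hra, show a + 1 - (r + 1) = a - r by omega]
    · rw [if_neg (by omega), if_neg hra]
  · have ha' : a = m - b := by omega
    rw [prim_zero hp (show m - b < a + 1 by omega), map_zero, map_zero]
    by_cases hra : r ≤ a
    · rw [if_pos hra, bot_apply h hR hb hpb hp]
      by_cases hbj : b = m - j
      · by_cases hrj : r = j
        · rw [if_pos (by omega), if_pos hrj, if_pos (by omega), sub_self]
        · rw [if_neg (by omega), if_neg hrj, sub_zero]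
      · rw [if_neg (by omega), if_neg (show ¬ (a = m - b ∧ b = m - j) by omega), ite_self,
          sub_zero]
    · rw [if_neg hra, map_zero]
      by_cases hrj : r = j
      · rw [if_pos hrj, if_neg (by omega), sub_zero]
      · rw [if_neg hrj, sub_zero]

include h in
lemma rho_top : R ^ (m + 1) = 0 := by
  refine end_ext hM hbd hHL h fun b hb p hpb hp a ha => ?_
  rw [rho_pow hR hb hpb hp ha, if_neg (by omega), LinearMap.zero_apply]

lemma sum_top : ∑ j ∈ range (m + 1), top h m M R j = 1 - R * M := by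
  refine end_ext hM hbd hHL h fun b hb p hpb hp a ha => ?_
  rw [LinearMap.sum_apply, one_sub_apply hR hb hpb hp]
  have e1 : ∀ j ∈ range (m + 1), top h m M R j ((M ^ a) p) =
      if j = m - b then (if a = m - b then (M ^ a) p else 0) else 0 := by
    intro j hj
    rw [Finset.mem_range] at hj
    rw [top_apply h hM hR hb hpb hp a (by omega)]
    by_cases h1 : j = m - b
    · rw [if_pos h1]
      by_cases h2 : a = m - b
      · rw [if_pos ⟨h2, by omega⟩, if_pos h2, h1, h2]
      · rw [if_neg (fun h' => h2 h'.1), if_neg h2]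
    · rw [if_neg h1, if_neg (by omega)]
  rw [Finset.sum_congr rfl e1, Finset.sum_ite_eq', if_pos (Finset.mem_range.2 (by omega))]

omit hM hbd hHL hR in
lemma top_mul_proj (j : ℕ) : top h m M R j * proj h (m + j) = top h m M R j := by
  rw [top, mul_assoc, proj_mul_proj]

end Pool.Agent.N190.GS
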