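import Pool.Agent.N190.CB.Defs

/-!
# Künneth projectors of generic hyperplane sections of products: definitions
-/

set_option autoImplicit false

open CategoryTheory AlgebraicGeometry

universe u v

namespace Pool.Agent.N190.GS

section Alg

variable {K A : Type*} [Field K] [Ring A] [Algebra K A]

/-- Some operator of the set `S` sends `x * a` to `a` for all `a` in `U`. -/
def SendsBack (S : Set (Module.End K A)) (U : Submodule K A) (x : A) : Prop :=
  ∃ T ∈ S, ∀ a ∈ U, T (x * a) = a

/-- There are primitive classes different from zero in all degrees `b ≤ m`. -/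
def HasPrimitives (gr : ℕ → Submodule K A) (η : A) (m : ℕ) : Prop :=
  ∀ b ≤ m, ∃ p ∈ gr b, p ≠ 0 ∧ η ^ (m - b + 1) * p = 0

end Alg

open Pool.Agent.H914 Pool.Agent.N190.CB VarClass Obj WeilCohomology

variable {k : Type u} [Field k] {𝒱 : VarClass k} {ops : CycleOps 𝒱}

/-- The operators on `H(V)` induced by the algebraic cycles of codimension `p` on `V × V`. -/
def cycleOps (W : WeilCohomology.{u, v} ops) (V : 𝒱.Obj) (p : ℕ) : Set (Module.End W.K (W.H V)) :=
  {T | ∃ z, (V.prod V).IsCyc p z ∧ W.corr (W.cl _ z) = T}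

/-- Let `n = dim X` and let `ξ` be the class of `D`. For all `j ≤ n - 2` some algebraic cycle of
codimension `j + 1` on `X × X` sends `ξ ^ (n - 1 - j) · a` to `a` for all `a` in `H^j(X)`. -/
def InvertsBelow (W : WeilCohomology.{u, v} ops) {X : 𝒱.Obj} (D : X.Cycles) : Prop :=
  ∀ j, j + 2 ≤ X.dim →
    SendsBack (cycleOps W X (j + 1)) (W.gr X j) (W.cl X D ^ (X.dim - 1 - j))

/-- The inverse of `ξ ^ (n - j) : H^j(X) → H^(2n - j)(X)` is algebraic for `1 ≤ j ≤ n - 2`. -/
def InverseUpTo (W : WeilCohomology.{u, v} ops) {X : 𝒱.Obj} (D : X.Cycles) : Prop :=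
  ∀ j, 1 ≤ j → j + 2 ≤ X.dim → SendsBack (cycleOps W X j) (W.gr X j) (W.cl X D ^ (X.dim - j))

/-- The conjecture C holds for the generic hyperplane sections of `X × Q`, for the sum of the
divisors `D` and `h`, for all varieties `Q` with a divisor `h` which satisfies hard Lefschetz and the
conjecture B. -/
def KunnethForSections (W : WeilCohomology.{u, v} ops) {X : 𝒱.Obj} (D : X.Cycles) : Prop :=
  ∀ (Q : 𝒱.Obj) (h : Q.Cycles), Q.IsCyc 1 h → HardLefschetz W Q h → LefschetzB W Q h →
    ∀ (T : Theory.{u, v}) (Z : T.𝒱.Obj),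
      GenericSection W T.W (V := X.prod Q) (TH720.LB.sumDiv ops D h) Z → KunnethStd T.W Z

/-- One generic hyperplane section `Z` of `X × Q`, where `Q` is a variety of dimension `dim X - 2`
with a divisor `h` which satisfies hard Lefschetz and the conjecture B and with primitive classes in
all degrees (for example an abelian variety, or a product of curves of positive genus). It lives over
another field, with the theory `T`. -/
structure TestSection (W : WeilCohomology.{u, v} ops) {X : 𝒱.Obj} (D : X.Cycles) where
  /-- the auxiliary variety -/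
  Q : 𝒱.Obj
  /-- its divisor -/
  h : Q.Cycles
  /-- the theory -/
  T : Theory.{u, v}
  /-- the section -/
  Z : T.𝒱.Obj
  div : Q.IsCyc 1 h
  hard : HardLefschetz W Q h
  lef : LefschetzB W Q h
  dim : Q.dim + 2 = X.dim
  prim : HasPrimitives (W.gr Q) (W.cl Q h) Q.dim
  /-- it is the generic hyperplane section -/
  G : GenericSection W T.W (V := X.prod Q) (TH720.LB.sumDiv ops D h) Z

end Pool.Agent.N190.GS
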