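import Pool.Agent.N190.GS.Prod

/-!
# Künneth projectors of the generic hyperplane section
-/

set_option autoImplicit false

open CategoryTheory AlgebraicGeometry Finset

universe u v

namespace Pool.Agent.N190.GS

open Pool.Agent.H914 Pool.Agent.H447 Pool.Agent.N190.CB Pool.Agent.N190.AM Pool.Agent.TH720.LB
  Pool.Agent.W534 VarClass Obj WeilCohomology

variable {k : Type u} [Field k] {𝒱 : VarClass k} {ops : CycleOps 𝒱}
  {k' : Type u} [Field k'] {𝒱' : VarClass k'} {ops' : CycleOps 𝒱'}
  {W : WeilCohomology.{u, v} ops} {W' : WeilCohomology.{u, v} ops'} {V X Q : 𝒱.Obj} {Z : 𝒱'.Obj}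

lemma rop_proj_prod (hX : ∀ s, ROp W X 0 (proj (W.isInternal X) s))
    (hQ : ∀ s, ROp W Q 0 (proj (W.isInternal Q) s)) (i : ℕ) :
    ROp W (X.prod Q) 0 (proj (W.isInternal (X.prod Q)) i) := by
  have e : proj (W.isInternal (X.prod Q)) i = ∑ a ∈ range (i + 1),
      extOp W (proj (W.isInternal X) a) (proj (W.isInternal Q) (i - a)) := by
    apply LinearMap.ext
    intro z
    refine W.kunneth_induction (p := fun z => proj (W.isInternal (X.prod Q)) i z =
      (∑ a ∈ range (i + 1), extOp W (proj (W.isInternal X) a)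
        (proj (W.isInternal Q) (i - a))) z) ?_ ?_ z
    · intro a b ha hb
      rw [map_add, map_add, ha, hb]
    intro a b x hx q hq
    have hxq := W.mul_mem (W.map_mem (fst X Q) hx) (W.map_mem (snd X Q) hq)
    rw [LinearMap.sum_apply]
    by_cases hi : a + b = i
    · rw [proj_same _ (hi ▸ hxq), Finset.sum_eq_single a]
      · rw [extOp_tmul, proj_same _ hx, show i - a = b by omega, proj_same _ hq]
      · intro a' _ ha'
        rw [extOp_tmul, proj_ne _ hx (Ne.symm ha'), map_zero, zero_mul]
      · intro h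
        exact absurd (Finset.mem_range.2 (by omega)) h
    · rw [proj_ne _ hxq hi, Finset.sum_eq_zero]
      intro a' ha'
      rw [Finset.mem_range] at ha'
      by_cases haa : a = a'
      · rw [extOp_tmul, proj_ne (W.isInternal Q) hq (show b ≠ i - a' by omega), map_zero,
          mul_zero]
      · rw [extOp_tmul, proj_ne _ hx haa, map_zero, zero_mul]
  rw [e]
  exact rop_opAlg.sum fun a _ => rop_opAlg.cast (rop_ext (hX a) (hQ (i - a))) (by ring)

/-- The dual projector. -/
lemma rop_proj_dual {i : ℕ} (hi : i ≤ 2 * V.dim) (h : ROp W V 0 (proj (W.isInternal V) i)) :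
    ROp W V 0 (proj (W.isInternal V) (2 * V.dim - i)) := by
  obtain ⟨z, hz, hzi⟩ := exists_of_rop (p := V.dim) (by simp) h
  have e : W.corr (W.cl _ (ops.pull (swap V V) z)) =
      proj (W.isInternal V) (2 * V.dim - i) := by
    apply gr_ext (W.isInternal V)
    intro j b hb
    rw [W.cl_pull, ← sub_eq_zero]
    apply nondeg_right
    intro a
    rw [mul_sub, map_sub, ← tr_corr_swap (W.cl_mem hz), hzi, sub_eq_zero]
    refine gr_induction (W.isInternal V) (p := fun a => W.tr V (proj (W.isInternal V) i a * b) =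
      W.tr V (a * proj (W.isInternal V) (2 * V.dim - i) b)) ?_ ?_ a
    · intro l a ha
      by_cases hl : l = i
      · by_cases hj : j = 2 * V.dim - i
        · rw [hl] at ha
          rw [hj] at hb
          rw [proj_same _ ha, proj_same _ hb]
        · rw [proj_ne _ hb hj, mul_zero, map_zero]
          exact W.tr_eq_zero (W.mul_mem (proj_mem _ i a) hb) (by omega)
      · rw [proj_ne _ ha hl, zero_mul, map_zero]
        exact (W.tr_eq_zero (W.mul_mem ha (proj_mem _ _ b)) (by omega)).symm
    · intro a a' h1 h2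
      rw [map_add, add_mul, map_add, h1, h2, add_mul, map_add]
  rw [← e]
  exact rop_corr (by simp) (ops.pull_mem _ hz)

/-- The projectors in the degrees below the middle suffice. -/
lemma kunneth_of_below (h : ∀ i < V.dim, ROp W V 0 (proj (W.isInternal V) i)) :
    KunnethStd W V := by
  have hne : ∀ i, i ≠ V.dim → ROp W V 0 (proj (W.isInternal V) i) := by
    intro i hi
    rcases Nat.lt_or_ge i V.dim with h1 | h1
    · exact h i h1
    · by_cases h2 : i ≤ 2 * V.dim
      · have := rop_proj_dual (by omega) (h (2 * V.dim - i) (by omega))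
        rwa [show 2 * V.dim - (2 * V.dim - i) = i by omega] at this
      · have e : proj (W.isInternal V) i = 0 := by
          apply gr_ext (W.isInternal V)
          intro j a ha
          by_cases hj : j = i
          · subst hj
            rw [W.gr_eq_bot V j (by omega)] at ha
            rw [(Submodule.mem_bot _).1 ha, map_zero, map_zero]
          · rw [proj_ne _ ha hj, LinearMap.zero_apply]
        rw [e]
        exact rop_opAlg.zero 0
  apply kunneth_of_rop
  intro i
  by_cases hi : i = V.dim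
  · have h1 := sum_proj (W.isInternal V) (N := 2 * V.dim + 1) (fun j hj => W.gr_eq_bot V j (by omega))
    rw [← Finset.add_sum_erase _ _ (Finset.mem_range.2 (show V.dim < 2 * V.dim + 1 by omega))] at h1
    rw [hi, eq_sub_of_add_eq h1]
    exact rop_opAlg.sub rop_opAlg.one (rop_opAlg.sum fun j hj => hne j (Finset.ne_of_mem_erase hj))
  · exact hne i hi

section Gen

variable {D : V.Cycles} (G : GenericSection W W' D Z)
include G

/-- **The Künneth projectors of the generic hyperplane section** from left inverses of the Lefschetz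
operator. -/
theorem kunneth_of_left (hD : V.IsCyc 1 D) (hP : ∀ i, ROp W V 0 (proj (W.isInternal V) i))
    (hT : ∀ i < Z.dim, ∃ T, ROp W V (-1) T ∧ ∀ x ∈ W.gr V i, T (W.cl V D * x) = x) :
    KunnethStd W' Z := by
  apply kunneth_of_below
  intro i hi
  obtain ⟨T, hTR, hTx⟩ := hT i hi
  obtain ⟨y, hy, hyT⟩ := exists_of_rop (p := Z.dim) (by rw [G.dim]; push_cast; ring)
    (rop_opAlg.mul (hP i) hTR)
  obtain ⟨z, hz, hzy⟩ := G.restrict y hy
  have hTm : ∀ {j : ℕ} {x : W.H V}, x ∈ W.gr V j → T (W.cl V D * x) ∈ W.gr V j := by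
    intro j x hx
    have hξ : W.cl V D ∈ W.gr V (2 * 1) := W.cl_mem hD
    have h2 := rop_opAlg.hom hTR _ _ (by rw [grZ_natCast]; exact W.mul_mem hξ hx)
    rwa [show ((2 * 1 + j : ℕ) : ℤ) + 2 * (-1) = (j : ℤ) by push_cast; ring, grZ_natCast] at h2
  have key : W'.corr (W'.cl _ z) = proj (W'.isInternal Z) i := by
    have h1 : ∀ x : W.H V, W'.corr (W'.cl _ z) (G.res x) =
        proj (W'.isInternal Z) i (G.res x) := by
      intro x
      refine gr_induction (W.isInternal V) (p := fun x => W'.corr (W'.cl _ z) (G.res x) =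
        proj (W'.isInternal Z) i (G.res x)) ?_ ?_ x
      · intro j x hx
        rw [hzy, corr_res G hD, hyT, Module.End.mul_apply]
        by_cases hj : j = i
        · rw [hj] at hx
          rw [hTx x hx, proj_same _ hx, proj_same _ (G.res_mem i x hx)]
        · rw [proj_ne _ (hTm hx) hj, map_zero, proj_ne _ (G.res_mem j x hx) hj]
      · intro a b ha hb
        rw [map_add, map_add, map_add, ha, hb]
    apply LinearMap.ext
    intro b
    obtain ⟨r, hr, v, hvm, hv, rfl⟩ := G.span b
    have h2 : W'.corr (W'.cl _ z) r = proj (W'.isInternal Z) i r := by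
      induction hr using Submodule.span_induction with
      | mem x hx =>
        obtain ⟨x, rfl⟩ := hx
        exact h1 x
      | zero => rw [map_zero, map_zero]
      | add x y _ _ hx hy => rw [map_add, map_add, hx, hy]
      | smul c x _ hx => rw [map_smul, map_smul, hx]
    rw [map_add, map_add, h2, hzy, corr_vanishing G hvm hv, proj_ne _ hvm (by omega)]
  rw [← key]
  exact rop_corr (by simp) hz

/-- **The sign conjecture for the generic hyperplane section** gives a left inverse of the Lefschetz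
operator in the degrees of the other parity. -/
theorem exists_left_of_sign (hD : V.IsCyc 1 D) (hS : SignStd W' Z) :
    ∃ T, ROp W V (-1) T ∧ ∀ i < Z.dim, (Even i ↔ ¬ Even Z.dim) → ∀ x ∈ W.gr V i,
      T (W.cl V D * x) = x := by
  obtain ⟨P, hP, hPe⟩ := hS
  obtain ⟨y, hy, c, hc⟩ := G.cycles P hP
  have hdiag : ∀ b : W'.H Z, W'.corr (W'.push (diag Z) 1) b = b := fun b => by
    rw [corr_diag, one_mul]
  have hval : ∀ b : W'.H Z, W'.corr (W'.cl _ P) b = W'.corr (G.res₂ (W.cl _ y)) b +
      (c : W'.K) • b := fun b => by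
    rw [hc, corr_add, corr_smul, LinearMap.add_apply, LinearMap.smul_apply, hdiag]
  have hc0 : (c : W'.K) = if Even Z.dim then 1 else 0 := by
    obtain ⟨v, hv, hv0, hvr⟩ := G.vanishing
    have h1 := hval v
    rw [hPe _ v hv, corr_vanishing G hv hvr, zero_add] at h1
    split_ifs at h1 ⊢ with he
    · have h2 : ((c : W'.K) - 1) • v = 0 := by rw [sub_smul, one_smul, ← h1, sub_self]
      exact sub_eq_zero.1 ((smul_eq_zero.1 h2).resolve_right hv0)
    · exact (smul_eq_zero.1 h1.symm).resolve_right hv0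
  have hyk : ROp W V (-1) (W.corr (W.cl _ y)) :=
    rop_corr (p := Z.dim) (by rw [G.dim]; push_cast; ring) hy
  have hξ : W.cl V D ∈ W.gr V (2 * 1) := W.cl_mem hD
  have hmem : ∀ {i : ℕ} {x : W.H V}, x ∈ W.gr V i →
      W.corr (W.cl _ y) (W.cl V D * x) ∈ W.gr V i := by
    intro i x hx
    have h2 := rop_opAlg.hom hyk _ _ (by rw [grZ_natCast]; exact W.mul_mem hξ hx)
    rwa [show ((2 * 1 + i : ℕ) : ℤ) + 2 * (-1) = (i : ℤ) by push_cast; ring, grZ_natCast] at h2
  by_cases he : Even Z.dim
  · rw [if_pos he] at hc0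
    refine ⟨-W.corr (W.cl _ y), rop_opAlg.neg hyk, fun i hi hpar x hx => ?_⟩
    have hio : ¬ Even i := fun h => hpar.1 h he
    have h1 := hval (G.res x)
    rw [hPe _ _ (G.res_mem i x hx), if_neg hio, hc0, one_smul, corr_res G hD, ← map_add] at h1
    have h2 := G.weak i hi _ (Submodule.add_mem _ (hmem hx) hx) h1.symm
    rw [LinearMap.neg_apply]
    exact neg_eq_of_add_eq_zero_right h2
  · rw [if_neg he] at hc0
    refine ⟨W.corr (W.cl _ y), hyk, fun i hi hpar x hx => ?_⟩
    have h1 := hval (G.res x)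
    rw [hPe _ _ (G.res_mem i x hx), if_pos (hpar.2 he), hc0, zero_smul, add_zero,
      corr_res G hD] at h1
    rw [← sub_eq_zero]
    apply G.weak i hi _ (Submodule.sub_mem _ (hmem hx) hx)
    rw [map_sub, ← h1, sub_self]

end Gen

lemma exists_cyc_pow {h : Q.Cycles} (hh : Q.IsCyc 1 h) (m : ℕ) :
    ∃ z, Q.IsCyc m z ∧ W.cl Q z = W.cl Q h ^ m := by
  induction m with
  | zero => exact ⟨Q.V.fundCycle, Q.V.fundCycle_mem, by rw [W.cl_fund, pow_zero]⟩
  | succ m ih =>
    obtain ⟨z, hz, hzc⟩ := ih
    exact ⟨ops.mul z h, ops.mul_mem hz hh, by rw [W.cl_mul, hzc, pow_succ]⟩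

lemma rop_lower {h : Q.Cycles} (hh : Q.IsCyc 1 h) {T : Module.End W.K (W.H (X.prod Q))}
    (hT : ROp W (X.prod Q) (-1) T) :
    ROp W X (-((Q.dim : ℤ) + 1)) (lower W X Q (W.cl Q h) T) := by
  have h1 := QOp.comp (rop_iff.1 hT) (qop_pull (W := W) (fst X Q))
  have h2 := QOp.comp (qop_push (W := W) (fst X Q)) h1
  have h3 := rop_iff.2 (h2.cast (e := -((Q.dim : ℤ) + 1)) (by rw [dim_prod]; push_cast; ring))
  obtain ⟨z, hz, hzc⟩ := exists_cyc_pow (W := W) hh Q.dim
  have h4 := rop_opAlg.smul ((-1 : ℚ) ^ Q.dim * (Q.V.degCycle z)⁻¹) h3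
  rw [lower, ← hzc, W.tr_cl hz]
  rwa [Rat.cast_mul, Rat.cast_pow, Rat.cast_neg, Rat.cast_one, Rat.cast_inv] at h4

end Pool.Agent.N190.GS
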