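import Pool.Agent.N190.GS.Defs
import Pool.Agent.N190.GS.Sec

/-!
# Künneth projectors of generic hyperplane sections of products
-/

set_option autoImplicit false

open CategoryTheory AlgebraicGeometry Finset

universe u v

namespace Pool.Agent.N190.GS

open Pool.Agent.H914 Pool.Agent.H447 Pool.Agent.N190.CB Pool.Agent.TH720.LB
  Pool.Agent.W534 VarClass Obj WeilCohomology

variable {k : Type u} [Field k] {𝒱 : VarClass k} {ops : CycleOps 𝒱}
  {k' : Type u} [Field k'] {𝒱' : VarClass k'} {ops' : CycleOps 𝒱'}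
  {W : WeilCohomology.{u, v} ops} {W' : WeilCohomology.{u, v} ops'} {X Q : 𝒱.Obj} {Z : 𝒱'.Obj}
  {D : X.Cycles} {h : Q.Cycles}

/-- **The conjecture C for the generic hyperplane sections of `X × Q`.** -/
theorem kunneth_of_inverts (hD : X.IsCyc 1 D) (hK : KunnethStd W X) (hI : InvertsBelow W D)
    (hh : Q.IsCyc 1 h) (hQL : HardLefschetz W Q h) (hQB : LefschetzB W Q h)
    (G : GenericSection W W' (V := X.prod Q) (sumDiv ops D h) Z) : KunnethStd W' Z := by
  have hdim := G.dim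
  simp only [dim_prod] at hdim
  obtain ⟨R, hRop, hR⟩ := lefschetzB_iff_rop.1 hQB
  refine kunneth_of_left G (isCyc_sumDiv' hD hh) (rop_proj_prod (fun s => kunneth_rop hK s)
    fun s => rop_opAlg.proj_mem (W.isInternal Q) W_hbd (rop_mulLeft hh) hQL hRop hR s) ?_
  intro i hi
  refine exists_left_prod hD hh hQL hQB fun j _ => ?_
  by_cases hij : Q.dim + j ≤ i
  · obtain ⟨l, hl⟩ := Nat.exists_eq_add_of_le hij
    obtain ⟨T, ⟨z, hz, rfl⟩, hT⟩ := hI l (by omega)
    obtain ⟨c, hc⟩ := Nat.exists_eq_add_of_le (show j + 1 ≤ X.dim - 1 - l by omega)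
    have hLop : ROp W X 1 (LinearMap.mulLeft W.K (W.cl X D)) := rop_mulLeft hD
    refine ⟨W.corr (W.cl _ z) * LinearMap.mulLeft W.K (W.cl X D) ^ c,
      rop_opAlg.cast (rop_opAlg.mul (rop_corr (p := l + 1)
        (d := -((X.dim : ℤ) - 1 - l)) (by push_cast; ring) hz) (rop_opAlg.pow hLop c))
        (by omega), fun _ a ha => ?_⟩
    rw [show i - (Q.dim + j) = l by omega] at ha
    rw [Module.End.mul_apply, ← Module.End.mul_apply (_ ^ c), ← pow_add, add_comm c, ← hc,
      CB.mulLeft_pow_apply, hT a ha]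
  · exact ⟨0, rop_opAlg.zero _, fun h' => absurd h' hij⟩

/-- The inverse in the degree `0`. -/
lemma sendsBack_zero (hD : X.IsCyc 1 D) (hHL : HardLefschetz W X D) (hne : (1 : W.H X) ≠ 0) :
    SendsBack (cycleOps W X 0) (W.gr X 0) (W.cl X D ^ X.dim) := by
  have hξ : W.cl X D ∈ W.gr X (2 * 1) := W.cl_mem hD
  have htr := degree_ne_zero hD hHL hne
  obtain ⟨z, hz, hzc⟩ := exists_cyc_pow (W := W) hD X.dim
  have hq : W.tr X (W.cl X D ^ X.dim) = (X.V.degCycle z : W.K) := by rw [← hzc, W.tr_cl hz]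
  refine ⟨_, ⟨(X.V.degCycle z)⁻¹ • (X.prod X).V.fundCycle,
    (X.prod X).V.fundCycle_mem.smul _, rfl⟩, fun a ha => ?_⟩
  rw [W.gr_zero, Submodule.mem_span_singleton] at ha
  obtain ⟨c, rfl⟩ := ha
  have h1 := corr_tmul (W := W) (1 : W.H X) (W.one_mem X) (pow_mem_gr hξ X.dim)
  rw [map_one, map_one, one_mul, one_mul, zero_mul, pow_zero, one_mul] at h1
  rw [W.cl_smul, corr_smul, W.cl_fund, LinearMap.smul_apply, mul_smul_comm, mul_one, map_smul, h1,
    Rat.cast_inv, ← hq, smul_smul, smul_smul]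
  congr 1
  field_simp

lemma InverseUpTo.below (hD : X.IsCyc 1 D) (hHL : HardLefschetz W X D) (hne : (1 : W.H X) ≠ 0)
    (hI : InverseUpTo W D) : InvertsBelow W D := by
  intro j hj
  have hIj : SendsBack (cycleOps W X j) (W.gr X j) (W.cl X D ^ (X.dim - j)) := by
    rcases Nat.eq_zero_or_pos j with rfl | hj0
    · exact sendsBack_zero hD hHL hne
    · exact hI j hj0 hj
  obtain ⟨T, ⟨z, hz, rfl⟩, hT⟩ := hIj
  have hc : ROp W X ((j : ℤ) - X.dim) (W.corr (W.cl _ z)) := rop_corr (p := j) (by ring) hz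
  obtain ⟨y, hy, hyc⟩ := exists_of_rop (W := W) (p := j + 1) (by push_cast; ring)
    (rop_opAlg.mul hc (rop_mulLeft hD))
  refine ⟨_, ⟨y, hy, rfl⟩, fun a ha => ?_⟩
  rw [hyc, Module.End.mul_apply, LinearMap.mulLeft_apply, ← mul_assoc, ← pow_succ',
    show X.dim - 1 - j + 1 = X.dim - j by omega, hT a ha]

/-- **The conjecture B in the degrees `≤ dim X - 2` suffices.** -/
theorem kunneth_of_inverse (hD : X.IsCyc 1 D) (hHL : HardLefschetz W X D) (hK : KunnethStd W X)
    (hI : InverseUpTo W D) : KunnethForSections W D := by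
  intro Q h hh hQL hQB T Z G
  exact kunneth_of_inverts hD hK (hI.below hD hHL (one_ne_zero_of_section G).1) hh hQL hQB G

end Pool.Agent.N190.GS
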