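import Pool.Agent.N190.GS.Tr
import Pool.Agent.N190.GS.Main

/-!
# One generic hyperplane section
-/

set_option autoImplicit false

open CategoryTheory AlgebraicGeometry Finset

universe u v

namespace Pool.Agent.N190.GS

open Pool.Agent.H914 Pool.Agent.H447 Pool.Agent.N190.CB Pool.Agent.TH720.LB
  Pool.Agent.W534 VarClass Obj WeilCohomology

section Alg

variable {K : Type*} [Field K] {U : Type*} [AddCommGroup U] [Module K U]
  {gr : ℕ → Submodule K U} {m : ℕ} {M R : Module.End K U} (h : DirectSum.IsInternal gr)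

/-- The projector onto the primitive classes of degree `b`. -/
noncomputable def prim (M R : Module.End K U) (b : ℕ) : Module.End K U := proj h b * (1 - M * R)

lemma prim_apply (hR : IsLam gr m M R) {b : ℕ} (hb : b ≤ m) {p : U} (hpb : p ∈ gr b)
    (hp : (M ^ (m - b + 1)) p = 0) (a c : ℕ) :
    prim h M R c ((M ^ a) p) = if a = 0 ∧ b = c then p else 0 := by
  rw [prim, Module.End.mul_apply, sub_apply_prim hR hb hpb hp]
  by_cases ha : a = 0
  · rw [if_pos ha]
    by_cases hbj : b = c
    · rw [if_pos ⟨ha, hbj⟩, proj_same h (hbj ▸ hpb)]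
    · rw [if_neg (fun h' => hbj h'.2), proj_ne h hpb hbj]
  · rw [if_neg ha, if_neg (fun h' => ha h'.1), map_zero]

variable (hM : IsHom gr 2 M) (hbd : ∀ i, 2 * m + 1 ≤ i → gr i = ⊥) (hHL : HardLef gr m M)
  (hR : IsLam gr m M R)
include hM hbd hHL hR

lemma prim_idem (c : ℕ) : prim h M R c * prim h M R c = prim h M R c := by
  refine end_ext hM hbd hHL h fun b hb p hpb hp a _ => ?_
  rw [Module.End.mul_apply, prim_apply h hR hb hpb hp]
  split_ifs with h1
  · have := prim_apply h hR hb hpb hp 0 c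
    rw [pow_zero, Module.End.one_apply, if_pos ⟨rfl, h1.2⟩] at this
    exact this
  · rw [map_zero]

lemma pow_mul_prim (c : ℕ) : M ^ (m - c + 1) * prim h M R c = 0 := by
  refine end_ext hM hbd hHL h fun b hb p hpb hp a _ => ?_
  rw [Module.End.mul_apply, prim_apply h hR hb hpb hp, LinearMap.zero_apply]
  split_ifs with h1
  · rw [← h1.2, hp]
  · rw [map_zero]

lemma rho_mul_prim {c a : ℕ} (hc : c ≤ m) (ha : a ≤ m - c) :
    R ^ (m - c) * (M ^ a * prim h M R c) = if a = m - c then prim h M R c else 0 := by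
  refine end_ext hM hbd hHL h fun b hb p hpb hp l _ => ?_
  have e1 : (if a = m - c then prim h M R c else 0 : Module.End K U) ((M ^ l) p) =
      if a = m - c then (if l = 0 ∧ b = c then p else 0) else 0 := by
    split_ifs with h1 h2
    · rw [prim_apply h hR hb hpb hp, if_pos h2]
    · rw [prim_apply h hR hb hpb hp, if_neg h2]
    · rw [LinearMap.zero_apply]
  rw [e1, Module.End.mul_apply, Module.End.mul_apply, prim_apply h hR hb hpb hp]
  by_cases h1 : l = 0 ∧ b = c
  · rw [if_pos h1, rho_pow hR hb hpb hp (by omega)]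
    by_cases h2 : a = m - c
    · rw [if_pos (by omega), if_pos h2, h2, Nat.sub_self, pow_zero, Module.End.one_apply]
    · rw [if_neg (by omega), if_neg h2]
  · rw [if_neg h1, map_zero, map_zero, ite_self]

end Alg

variable {k : Type u} [Field k] {𝒱 : VarClass k} {ops : CycleOps 𝒱}
  {k' : Type u} [Field k'] {𝒱' : VarClass k'} {ops' : CycleOps 𝒱'}
  {W : WeilCohomology.{u, v} ops} {W' : WeilCohomology.{u, v} ops'} {V X Q : 𝒱.Obj} {Z : 𝒱'.Obj}

lemma ext_mem {j b : ℕ} (A : Module.End W.K (W.H X)) (B : Module.End W.K (W.H Q))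
    (z : W.H (X.prod Q)) :
    extOp W (proj (W.isInternal X) j * A) (proj (W.isInternal Q) b * B) z ∈
      W.gr (X.prod Q) (j + b) := by
  refine W.kunneth_induction (p := fun z => extOp W (proj (W.isInternal X) j * A)
    (proj (W.isInternal Q) b * B) z ∈ W.gr (X.prod Q) (j + b)) ?_ ?_ z
  · intro a b ha hb
    rw [map_add]
    exact Submodule.add_mem _ ha hb
  · intro a b x _ q _
    rw [extOp_tmul, Module.End.mul_apply, Module.End.mul_apply]
    exact W.mul_mem (W.map_mem _ (proj_mem _ _ _)) (W.map_mem _ (proj_mem _ _ _))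

/-- **From a left inverse on `X × Q` in one degree to a left inverse on `X`**, for each degree in which
`Q` has primitive classes. -/
theorem inverts_of_left {D : X.Cycles} {h : Q.Cycles} (hD : X.IsCyc 1 D) (hh : Q.IsCyc 1 h)
    (hQL : HardLefschetz W Q h) (hQB : LefschetzB W Q h) {b : ℕ} (hb : b ≤ Q.dim) {p : W.H Q}
    (hpb : p ∈ W.gr Q b) (hp0 : p ≠ 0) (hp : W.cl Q h ^ (Q.dim - b + 1) * p = 0) {i j : ℕ}
    (hi : i = j + b + 2 * (Q.dim - b)) {T : Module.End W.K (W.H (X.prod Q))}
    (hT : ROp W (X.prod Q) (-1) T)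
    (hTL : ∀ z ∈ W.gr (X.prod Q) i, T (W.cl _ (sumDiv ops D h) * z) = z) :
    ∃ θ, ROp W X (-((Q.dim - b : ℕ) + 1 : ℤ)) θ ∧
      ∀ a ∈ W.gr X j, θ (W.cl X D ^ (Q.dim - b + 1) * a) = a := by
  obtain ⟨R, hRop, hR⟩ := lefschetzB_iff_rop.1 hQB
  set L := LinearMap.mulLeft W.K (W.cl X D) with hL
  set M := LinearMap.mulLeft W.K (W.cl Q h) with hM
  set m := Q.dim with hm
  set r := m - b with hr
  have hMh : IsHom (W.gr Q) 2 M := isHom_mulLeft W hh
  have hint := W.isInternal Q
  have hη : W.cl Q h ∈ W.gr Q (2 * 1) := W.cl_mem hh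
  have hlv : LinearMap.mulLeft W.K (W.cl _ (sumDiv ops D h)) = lv L M := by
    rw [cl_sumDiv, mulLeft_sum _ hη]
    rfl
  have hLop : ROp W X 1 L := rop_mulLeft hD
  have hMop : ROp W Q 1 M := rop_mulLeft hh
  have hproj : ∀ s, ROp W Q 0 (proj hint s) := fun s =>
    rop_opAlg.proj_mem hint W_hbd hMop hQL hRop hR s
  have hpm1 : ∀ {Y : 𝒱.Obj} (r : ℕ) {d : ℤ} {φ : Module.End W.K (W.H Y)}, ROp W Y d φ →
      ROp W Y d ((-1 : W.K) ^ r • φ) := by
    intro Y r d φ hφ
    have := rop_opAlg.smul ((-1 : ℚ) ^ r) hφ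
    rwa [Rat.cast_pow, Rat.cast_neg, Rat.cast_one] at this
  set B := prim hint M R b with hB
  have hBop : ROp W Q 0 B := rop_opAlg.cast (rop_opAlg.mul (hproj b)
    (rop_opAlg.sub rop_opAlg.one (rop_opAlg.cast (rop_opAlg.mul hMop hRop) (by ring)))) (by ring)
  set P := extOp W (proj (W.isInternal X) j) B with hP
  set Ω : Module.End W.K (W.H (X.prod Q)) :=
    ∑ l ∈ range (r + 1), (-1 : W.K) ^ l • extOp W (L ^ l) (M ^ (r - l)) with hΩ
  have hΩop : ROp W (X.prod Q) r Ω := rop_opAlg.sum fun l hl => hpm1 l (by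
    rw [Finset.mem_range] at hl
    exact rop_opAlg.cast (rop_ext (rop_opAlg.pow hLop l) (rop_opAlg.pow hMop (r - l)))
      (by rw [Nat.cast_sub (by omega)]; ring))
  -- the alternating sum
  have h1 : lv L M * (Ω * P) = (-1 : W.K) ^ r • extOp W (L ^ (r + 1) * proj (W.isInternal X) j) B := by
    set f : ℕ → Module.End W.K (W.H (X.prod Q)) := fun l =>
      (-1 : W.K) ^ l • extOp W (L ^ l * proj (W.isInternal X) j) (M ^ (r + 1 - l) * B) with hf
    have e1 : ∀ l ∈ range (r + 1), lv L M * (((-1 : W.K) ^ l • extOp W (L ^ l) (M ^ (r - l))) * P) =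
        f l - f (l + 1) := by
      intro l hl
      rw [Finset.mem_range] at hl
      have e3 : f (l + 1) = -((-1 : W.K) ^ l •
          extOp W (L ^ (l + 1) * proj (W.isInternal X) j) (M ^ (r - l) * B)) := by
        change (-1 : W.K) ^ (l + 1) • extOp W (L ^ (l + 1) * proj (W.isInternal X) j)
          (M ^ (r + 1 - (l + 1)) * B) = _
        rw [pow_succ (-1 : W.K), mul_neg_one, show r + 1 - (l + 1) = r - l by omega]
        exact neg_smul ((-1 : W.K) ^ l)
          (extOp W (L ^ (l + 1) * proj (W.isInternal X) j) (M ^ (r - l) * B))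
      have e4 : f l = (-1 : W.K) ^ l •
          extOp W (L ^ l * proj (W.isInternal X) j) (M ^ (r - l + 1) * B) := by
        change (-1 : W.K) ^ l • extOp W (L ^ l * proj (W.isInternal X) j)
          (M ^ (r + 1 - l) * B) = _
        rw [show r + 1 - l = r - l + 1 by omega]
      rw [e3, e4, hP, smul_mul_assoc, mul_smul_comm, extOp_mul, lv, add_mul, extOp_mul, extOp_mul,
        one_mul, one_mul, ← mul_assoc L, ← pow_succ', ← mul_assoc M, ← pow_succ', smul_add,
        sub_neg_eq_add, add_comm]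
    rw [hΩ, Finset.sum_mul, Finset.mul_sum, Finset.sum_congr rfl e1, Finset.sum_range_sub']
    have e5 : f 0 = 0 := by
      change (-1 : W.K) ^ 0 • extOp W (L ^ 0 * proj (W.isInternal X) j) (M ^ (r + 1 - 0) * B) = 0
      rw [Nat.sub_zero, hr, hB, pow_mul_prim hint hMh W_hbd hQL hR, extOp_zero_right, smul_zero]
    have e6 : f (r + 1) = -((-1 : W.K) ^ r •
        extOp W (L ^ (r + 1) * proj (W.isInternal X) j) B) := by
      change (-1 : W.K) ^ (r + 1) • extOp W (L ^ (r + 1) * proj (W.isInternal X) j)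
        (M ^ (r + 1 - (r + 1)) * B) = _
      rw [pow_succ (-1 : W.K), mul_neg_one, Nat.sub_self, pow_zero, one_mul]
      exact neg_smul ((-1 : W.K) ^ r) (extOp W (L ^ (r + 1) * proj (W.isInternal X) j) B)
    rw [e5, e6, zero_sub, neg_neg]
  have h2 : T * (lv L M * (Ω * P)) = Ω * P := by
    apply LinearMap.ext
    intro z
    have hPz : P z ∈ W.gr (X.prod Q) (j + b) := by
      have := ext_mem (W := W) (X := X) (Q := Q) (j := j) (b := b) 1 (1 - M * R) z
      rwa [mul_one] at this
    have hΩz : Ω (P z) ∈ W.gr (X.prod Q) i := by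
      have h3 := rop_opAlg.hom hΩop _ _ (by rw [grZ_natCast]; exact hPz)
      rwa [show ((j + b : ℕ) : ℤ) + 2 * r = (i : ℤ) by rw [hi]; push_cast; ring,
        grZ_natCast] at h3
    rw [Module.End.mul_apply, Module.End.mul_apply, ← hlv, LinearMap.mulLeft_apply,
      Module.End.mul_apply]
    exact hTL _ hΩz
  have h3 : extOp W 1 (R ^ r) * (Ω * P) = P := by
    rw [hΩ, Finset.sum_mul, Finset.mul_sum, Finset.sum_eq_single 0]
    · rw [pow_zero, one_smul, pow_zero, Nat.sub_zero, hP, extOp_mul, extOp_mul, one_mul, one_mul,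
        hB, hr, rho_mul_prim hint hMh W_hbd hQL hR hb le_rfl, if_pos rfl]
    · intro l hl hl0
      rw [Finset.mem_range] at hl
      rw [smul_mul_assoc, mul_smul_comm, hP, extOp_mul, extOp_mul, hB, hr,
        rho_mul_prim hint hMh W_hbd hQL hR hb (by omega), if_neg (by omega), extOp_zero_right,
        smul_zero]
    · intro h'
      exact absurd (Finset.mem_range.2 (Nat.succ_pos _)) h'
  have h4 : (extOp W 1 (R ^ r) * T) * extOp W (L ^ (r + 1) * proj (W.isInternal X) j) B =
      extOp W (proj (W.isInternal X) j) ((-1 : W.K) ^ r • B) := by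
    have e1 : extOp W (L ^ (r + 1) * proj (W.isInternal X) j) B =
        (-1 : W.K) ^ r • (lv L M * (Ω * P)) := by
      rw [h1, smul_smul, ← mul_pow, neg_mul_neg, one_mul, one_pow, one_smul]
    rw [e1, mul_smul_comm, mul_assoc, h2, h3, extOp_smul_right]
  have hRop' : ROp W Q (-(r : ℤ)) (R ^ r) := rop_opAlg.cast (rop_opAlg.pow hRop r) (by ring)
  obtain ⟨θ, hθ, hθL⟩ := exists_ptrace_mul (rop_opAlg.mul (rop_ext rop_opAlg.one hRop') hT) hBop
    (hpm1 r hBop) h4
  -- the trace
  obtain ⟨q, hq⟩ := rop_str _ (hpm1 r hBop)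
  have hq' : str W Q ((-1 : W.K) ^ r • B) = (q : W.K) := hq
  have hBp : B p = p := by
    have h5 : (M ^ (m - b + 1)) p = 0 := by
      rw [hM, CB.mulLeft_pow_apply]
      exact hp
    have := prim_apply hint hR hb hpb h5 0 b
    rwa [pow_zero, Module.End.one_apply, if_pos ⟨rfl, rfl⟩] at this
  have hq0 : (q : W.K) ≠ 0 := by
    intro h0
    rw [h0, map_smul, smul_eq_mul] at hq'
    have h5 : str W Q B = 0 := (mul_eq_zero.1 hq').resolve_left (pow_ne_zero _ (by simp))
    rw [hB, prim, str_proj_mul] at h5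
    have h6 := (mul_eq_zero.1 h5).resolve_left (pow_ne_zero _ (by simp))
    have h7 : B = 0 := eq_zero_of_idem_of_trace_eq_zero
      (prim_idem hint hMh W_hbd hQL hR b) h6
    rw [h7, LinearMap.zero_apply] at hBp
    exact hp0 hBp.symm
  refine ⟨((q⁻¹ : ℚ) : W.K) • θ, rop_opAlg.smul _ (rop_opAlg.cast hθ (by ring)), fun a ha => ?_⟩
  have h8 := LinearMap.congr_fun hθL a
  rw [Module.End.mul_apply, Module.End.mul_apply, proj_same _ ha, LinearMap.smul_apply,
    proj_same _ ha, hq', hL, CB.mulLeft_pow_apply] at h8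
  rw [LinearMap.smul_apply, h8, smul_smul, Rat.cast_inv, inv_mul_cancel₀ hq0, one_smul]

/-- The Künneth projectors of `V` from those of the generic hyperplane section. -/
lemma rop_proj_of_section {D : V.Cycles} (G : GenericSection W W' D Z) (hD : V.IsCyc 1 D)
    (hK : KunnethStd W' Z) {i : ℕ} (hi : i < Z.dim) : ROp W V 0 (proj (W.isInternal V) i) := by
  obtain ⟨P, hP, hPi⟩ := hK i
  obtain ⟨y, hy, c, hc⟩ := G.cycles P hP
  have hdiag : ∀ b : W'.H Z, W'.corr (W'.push (diag Z) 1) b = b := fun b => by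
    rw [corr_diag, one_mul]
  have hval : ∀ b : W'.H Z, W'.corr (W'.cl _ P) b = W'.corr (G.res₂ (W.cl _ y)) b +
      (c : W'.K) • b := fun b => by
    rw [hc, corr_add, corr_smul, LinearMap.add_apply, LinearMap.smul_apply, hdiag]
  have hc0 : (c : W'.K) = 0 := by
    obtain ⟨v, hv, hv0, hvr⟩ := G.vanishing
    have h1 := hval v
    rw [hPi _ v hv, if_neg (by omega), corr_vanishing G hv hvr, zero_add] at h1
    exact (smul_eq_zero.1 h1.symm).resolve_right hv0
  have hξ : W.cl V D ∈ W.gr V (2 * 1) := W.cl_mem hD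
  have hyk : ROp W V (-1) (W.corr (W.cl _ y)) :=
    rop_corr (p := Z.dim) (by rw [G.dim]; push_cast; ring) hy
  set e : Module.End W.K (W.H V) := W.corr (W.cl _ y) * LinearMap.mulLeft W.K (W.cl V D) with he
  have heop : ROp W V 0 e := rop_opAlg.cast (rop_opAlg.mul hyk (rop_mulLeft hD)) (by ring)
  have hres : ∀ j, ∀ x ∈ W.gr V j, G.res (e x) = if j = i then G.res x else 0 := by
    intro j x hx
    have h1 := hval (G.res x)
    rw [hPi _ _ (G.res_mem j x hx), hc0, zero_smul, add_zero, corr_res G hD] at h1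
    rw [he, Module.End.mul_apply, LinearMap.mulLeft_apply, ← h1]
  have hlow : ∀ j < Z.dim, ∀ x ∈ W.gr V j, e x = if j = i then x else 0 := by
    intro j hj x hx
    have hex : e x ∈ W.gr V j := by
      have h2 := rop_opAlg.hom heop _ _ (by rw [grZ_natCast]; exact hx)
      rwa [mul_zero, add_zero, grZ_natCast] at h2
    rw [← sub_eq_zero]
    apply G.weak j hj _ (Submodule.sub_mem _ hex (by
      split_ifs
      · exact hx
      · exact Submodule.zero_mem _))
    rw [map_sub, hres j x hx]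
    split_ifs
    · rw [sub_self]
    · rw [map_zero, sub_self]
  have hhigh : ∀ j, Z.dim ≤ j → ∀ x ∈ W.gr V j, e (e x) = 0 := by
    intro j hj x hx
    have h1 := hres j x hx
    rw [if_neg (by omega)] at h1
    have h2 : W.cl V D * e x = 0 := by
      apply W.nondeg
      intro u
      have h3 := G.tr_res (e x * u)
      rw [map_mul, h1, zero_mul, map_zero, ← mul_assoc] at h3
      exact (map_eq_zero G.σ).1 h3.symm
    have h4 : e (e x) = W.corr (W.cl _ y) (W.cl V D * e x) := rfl
    rw [h4, h2, map_zero]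
  have hee : proj (W.isInternal V) i = e * e := by
    apply gr_ext (W.isInternal V)
    intro j x hx
    rw [Module.End.mul_apply]
    rcases Nat.lt_or_ge j Z.dim with hj | hj
    · by_cases hji : j = i
      · rw [hlow j hj x hx, if_pos hji, hlow j hj x hx, if_pos hji, proj_same _ (hji ▸ hx)]
      · rw [hlow j hj x hx, if_neg hji, map_zero, proj_ne _ hx hji]
    · rw [hhigh j hj x hx, proj_ne _ hx (by omega)]
  rw [hee]
  exact rop_opAlg.cast (rop_opAlg.mul heop heop) (by ring)

/-- The Künneth projectors of the factor `X` from those of `X × Q`. -/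
lemma rop_proj_factor (hne : (1 : W.H Q) ≠ 0) (hQ : ROp W Q 0 (proj (W.isInternal Q) 0)) {i : ℕ}
    (hV : ROp W (X.prod Q) 0 (proj (W.isInternal (X.prod Q)) i)) :
    ROp W X 0 (proj (W.isInternal X) i) := by
  have h1 : proj (W.isInternal (X.prod Q)) i * extOp W 1 (proj (W.isInternal Q) 0) =
      extOp W (proj (W.isInternal X) i) (proj (W.isInternal Q) 0) := by
    apply LinearMap.ext
    intro z
    refine W.kunneth_induction (p := fun z => (proj (W.isInternal (X.prod Q)) i *
      extOp W 1 (proj (W.isInternal Q) 0) : Module.End W.K (W.H (X.prod Q))) z =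
      extOp W (proj (W.isInternal X) i) (proj (W.isInternal Q) 0) z) ?_ ?_ z
    · intro a b ha hb
      rw [map_add, map_add, ha, hb]
    intro a b x hx q hq
    rw [Module.End.mul_apply, extOp_tmul, extOp_tmul, Module.End.one_apply]
    by_cases hb : b = 0
    · rw [hb] at hq
      rw [proj_same _ hq]
      have hxq := W.mul_mem (W.map_mem (fst X Q) hx) (W.map_mem (snd X Q) hq)
      rw [add_zero] at hxq
      by_cases ha : a = i
      · rw [proj_same _ (ha ▸ hxq), proj_same _ (ha ▸ hx)]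
      · rw [proj_ne _ hxq ha, proj_ne _ hx ha, map_zero, zero_mul]
    · rw [proj_ne _ hq hb, map_zero, mul_zero, mul_zero, map_zero]
  obtain ⟨T, hT, hTL⟩ := exists_ptrace_mul hV hQ hQ h1
  obtain ⟨q, hq⟩ := rop_str _ hQ
  have hq' : str W Q (proj (W.isInternal Q) 0) = (q : W.K) := hq
  have hq0 : (q : W.K) ≠ 0 := by
    intro h0
    rw [h0] at hq'
    have h5 := str_proj_mul (W := W) (X := Q) 0 1
    rw [mul_one, hq', pow_zero, one_mul] at h5
    have h6 := eq_zero_of_idem_of_trace_eq_zero (proj_mul_proj (W.isInternal Q) 0) h5.symm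
    have h7 := proj_same (W.isInternal Q) (W.one_mem Q)
    rw [h6, LinearMap.zero_apply] at h7
    exact hne h7.symm
  rw [mul_one, hq'] at hTL
  have h8 : proj (W.isInternal X) i = ((q⁻¹ : ℚ) : W.K) • T := by
    rw [hTL, smul_smul, Rat.cast_inv, inv_mul_cancel₀ hq0, one_smul]
  rw [h8]
  exact rop_opAlg.smul _ (rop_opAlg.cast hT (by ring))

end Pool.Agent.N190.GS
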