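import Pool.Agent.N190.GS.One

/-!
# One generic hyperplane section decides
-/

set_option autoImplicit false

open CategoryTheory AlgebraicGeometry Finset

universe u v

namespace Pool.Agent.N190.GS

open Pool.Agent.H914 Pool.Agent.H447 Pool.Agent.N190.CB Pool.Agent.TH720.LB
  Pool.Agent.W534 VarClass Obj WeilCohomology

variable {k : Type u} [Field k] {𝒱 : VarClass k} {ops : CycleOps 𝒱}
  {W : WeilCohomology.{u, v} ops} {X : 𝒱.Obj} {D : X.Cycles}

/-- The sign conjecture for one section gives all left inverses. -/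
theorem invertsBelow_of_sign (hD : X.IsCyc 1 D) (S : TestSection W D)
    (hS : SignStd S.T.W S.Z) : InvertsBelow W D := by
  have hdim := S.G.dim
  simp only [dim_prod] at hdim
  have hd := S.dim
  obtain ⟨T, hT, hTL⟩ := exists_left_of_sign S.G (isCyc_sumDiv' hD S.div) hS
  intro j hj
  obtain ⟨p, hpb, hp0, hp⟩ := S.prim j (by omega)
  obtain ⟨θ, hθ, hθL⟩ := inverts_of_left (i := j + j + 2 * (S.Q.dim - j)) (j := j) hD S.div S.hard
    S.lef (by omega) hpb hp0 hp rfl hT (hTL _ (by omega) (by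
      rw [show S.Z.dim = j + j + 2 * (S.Q.dim - j) + 1 by omega, Nat.even_add_one, not_not]))
  obtain ⟨z, hz, hzc⟩ := exists_of_rop (p := j + 1) (by omega) hθ
  refine ⟨_, ⟨z, hz, rfl⟩, fun a ha => ?_⟩
  rw [hzc, show X.dim - 1 - j = S.Q.dim - j + 1 by omega]
  exact hθL a ha

/-- The conjecture C for one section gives the conjecture C for `X`. -/
theorem kunneth_of_section (hD : X.IsCyc 1 D) (S : TestSection W D) (hX : 3 ≤ X.dim)
    (hK : KunnethStd S.T.W S.Z) : KunnethStd W X := by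
  have hdim := S.G.dim
  simp only [dim_prod] at hdim
  have hd := S.dim
  obtain ⟨R, hRop, hR⟩ := lefschetzB_iff_rop.1 S.lef
  apply kunneth_of_below
  intro i hi
  exact rop_proj_factor (one_ne_zero_of_section S.G).2
    (rop_opAlg.proj_mem (W.isInternal S.Q) W_hbd (rop_mulLeft S.div) S.hard hRop hR 0)
    (rop_proj_of_section S.G (isCyc_sumDiv' hD S.div) hK (by omega))

/-- **One section decides.** -/
theorem one_section (hD : X.IsCyc 1 D) (S : TestSection W D) (hX : 3 ≤ X.dim) :
    List.TFAE [KunnethStd S.T.W S.Z,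
      KunnethStd W X ∧ SignStd S.T.W S.Z,
      KunnethStd W X ∧ InvertsBelow W D,
      KunnethStd W X ∧ KunnethForSections W D] := by
  tfae_have 1 → 2 := fun hK => ⟨kunneth_of_section hD S hX hK,
    sign_of_kunneth fun i => kunneth_rop hK i⟩
  tfae_have 2 → 3 := fun ⟨hK, hS⟩ => ⟨hK, invertsBelow_of_sign hD S hS⟩
  tfae_have 3 → 4 := fun ⟨hK, hI⟩ => ⟨hK, fun Q h hh hQL hQB T Z G =>
    kunneth_of_inverts hD hK hI hh hQL hQB G⟩
  tfae_have 4 → 1 := fun ⟨_, H⟩ => H S.Q S.h S.div S.hard S.lef _ _ S.G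
  tfae_finish

end Pool.Agent.N190.GS
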