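import Pool.Agent.N190.GS.Alg

/-!
# Left inverses of the Lefschetz operator of a product
-/

set_option autoImplicit false

open CategoryTheory AlgebraicGeometry Finset

universe u v

namespace Pool.Agent.N190.GS

open Pool.Agent.H914 Pool.Agent.H447 Pool.Agent.N190.CB Pool.Agent.N190.AM Pool.Agent.TH720.LB
  Pool.Agent.W534 VarClass Obj WeilCohomology

variable {k : Type u} [Field k] {𝒱 : VarClass k} {ops : CycleOps 𝒱}
  {W : WeilCohomology.{u, v} ops} {X Q : 𝒱.Obj}

/-- External products of rational correspondences. -/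
lemma rop_ext {d e : ℤ} {φ : Module.End W.K (W.H X)} {ψ : Module.End W.K (W.H Q)}
    (hφ : ROp W X d φ) (hψ : ROp W Q e ψ) : ROp W (X.prod Q) (d + e) (extOp W φ ψ) := by
  obtain ⟨F, ⟨p, hp, z, hz, hF⟩ | ⟨_, hF⟩, rfl⟩ := hφ
  · obtain ⟨F', ⟨p', hp', w, hw, hF'⟩ | ⟨_, hF'⟩, rfl⟩ := hψ
    · have hcyc := ops.mul_mem (ops.pull_mem (q1 X Q) hz) (ops.pull_mem (q2 X Q) hw)
      have e1 : extOp W (W.corr (W.cl _ z)) (W.corr (W.cl _ w)) =
          W.corr (W.cl _ (ops.mul (ops.pull (q1 X Q) z) (ops.pull (q2 X Q) w))) := by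
        apply ext_kunneth_lin
        intro a b
        rw [extOp_tmul, W.cl_mul, W.cl_pull, W.cl_pull, corr_ext _ (W.cl_mem hw)]
      rw [hF, hF', e1]
      exact rop_corr (by rw [dim_prod]; push_cast; omega) hcyc
    · rw [hF', extOp_zero_right]
      exact rop_opAlg.zero _
  · rw [hF, extOp_zero_left]
    exact rop_opAlg.zero _

lemma ext_eq {i s : ℕ} {A : Module.End W.K (W.H X)} {B : Module.End W.K (W.H Q)}
    (hB : B * proj (W.isInternal Q) s = B)
    (hA : s ≤ i → ∀ a ∈ W.gr X (i - s), A a = a) {z : W.H (X.prod Q)}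
    (hz : z ∈ W.gr (X.prod Q) i) : extOp W A B z = extOp W 1 B z := by
  have key : ∀ z, extOp W A B (proj (W.isInternal (X.prod Q)) i z) =
      extOp W 1 B (proj (W.isInternal (X.prod Q)) i z) := by
    intro z
    refine W.kunneth_induction (p := fun z => extOp W A B (proj (W.isInternal (X.prod Q)) i z) =
      extOp W 1 B (proj (W.isInternal (X.prod Q)) i z)) ?_ ?_ z
    · intro a b ha hb
      rw [map_add, map_add, map_add, ha, hb]
    intro a b x hx q hq
    have hxq := W.mul_mem (W.map_mem (fst X Q) hx) (W.map_mem (snd X Q) hq)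
    by_cases hi : a + b = i
    · rw [proj_same _ (hi ▸ hxq), extOp_tmul, extOp_tmul, Module.End.one_apply]
      by_cases hb : b = s
      · rw [hA (by omega) x (by rwa [show i - s = a by omega])]
      · have : B q = 0 := by
          rw [← hB, Module.End.mul_apply, proj_ne _ hq hb, map_zero]
        rw [this, map_zero, mul_zero, mul_zero]
    · rw [proj_ne _ hxq hi, map_zero, map_zero]
  have := key z
  rwa [proj_same _ hz] at this

section Main

variable (L : Module.End W.K (W.H X)) (M R : Module.End W.K (W.H Q))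

/-- The alternating sum of the operators `L ^ r ⊗ R ^ r`. -/
noncomputable def gam (N : ℕ) : Module.End W.K (W.H (X.prod Q)) :=
  ∑ r ∈ range N, (-1 : W.K) ^ r • extOp W (L ^ r) (R ^ r)

/-- The alternating sum of the operators `L ^ r ⊗ R ^ (r + 1)`. -/
noncomputable def gamS (N : ℕ) : Module.End W.K (W.H (X.prod Q)) :=
  ∑ r ∈ range N, (-1 : W.K) ^ r • extOp W (L ^ r) (R ^ (r + 1))

/-- The Lefschetz operator of the product. -/
noncomputable def lv : Module.End W.K (W.H (X.prod Q)) := extOp W L 1 + extOp W 1 M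

lemma gamS_mul {N : ℕ} (hN : R ^ N = 0) :
    gamS L R N * lv L M = 1 - gam L R N * extOp W 1 (1 - R * M) := by
  set f : ℕ → Module.End W.K (W.H (X.prod Q)) := fun r =>
    (-1 : W.K) ^ r • extOp W (L ^ r) (R ^ r) with hf
  have h1 : ∀ r, ((-1 : W.K) ^ r • extOp W (L ^ r) (R ^ (r + 1))) * lv L M =
      (f r - f (r + 1)) - f r * extOp W 1 (1 - R * M) := by
    intro r
    have e2 : extOp W (L ^ r) (R ^ (r + 1) * M) = extOp W (L ^ r) (R ^ r) -
        extOp W (L ^ r) (R ^ r - R ^ (r + 1) * M) := by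
      rw [eq_sub_iff_add_eq, ← extOp_add_right]
      congr 1
      abel
    have e3 : f (r + 1) = -((-1 : W.K) ^ r • extOp W (L ^ (r + 1)) (R ^ (r + 1))) := by
      change (-1 : W.K) ^ (r + 1) • extOp W (L ^ (r + 1)) (R ^ (r + 1)) = _
      rw [pow_succ, mul_neg_one]
      exact neg_smul ((-1 : W.K) ^ r) (extOp W (L ^ (r + 1)) (R ^ (r + 1)))
    have e4 : f r * extOp W 1 (1 - R * M) =
        (-1 : W.K) ^ r • extOp W (L ^ r) (R ^ r - R ^ (r + 1) * M) := by
      change ((-1 : W.K) ^ r • extOp W (L ^ r) (R ^ r)) * extOp W 1 (1 - R * M) = _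
      rw [smul_mul_assoc, extOp_mul, mul_one, mul_sub, mul_one, ← mul_assoc, ← pow_succ]
    rw [e3, e4, lv, mul_add, smul_mul_assoc, smul_mul_assoc, extOp_mul, extOp_mul, mul_one,
      mul_one, ← pow_succ, e2, smul_sub]
    change _ = (-1 : W.K) ^ r • extOp W (L ^ r) (R ^ r) - _ - _
    abel
  rw [gamS, Finset.sum_mul, Finset.sum_congr rfl fun r _ => h1 r, Finset.sum_sub_distrib,
    Finset.sum_range_sub', ← Finset.sum_mul]
  congr 1
  rw [hf]
  simp only
  rw [hN, extOp_zero_right, smul_zero, sub_zero, pow_zero, pow_zero, pow_zero, one_smul,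
    extOp_one]

lemma bot_gam_mul {m : ℕ} {E : Module.End W.K (W.H Q)} {P : Module.End W.K (W.H Q)} {j : ℕ}
    (hj : j ≤ m) (hR : R ^ (m + 1) = 0) (hE : E * M = 0)
    (hER : ∀ r, E * R ^ (r + 1) * M = E * R ^ r - if r = j then P else 0) :
    extOp W 1 E * gam L R (m + 2) * lv L M = (-1 : W.K) ^ j • extOp W (L ^ (j + 1)) P := by
  set g : ℕ → Module.End W.K (W.H (X.prod Q)) := fun r =>
    (-1 : W.K) ^ r • extOp W (L ^ (r + 1)) (E * R ^ r) with hg
  have h1 : extOp W 1 E * gam L R (m + 2) * lv L M = ∑ r ∈ range (m + 2), g r +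
      ∑ r ∈ range (m + 2), (-1 : W.K) ^ r • extOp W (L ^ r) (E * R ^ r * M) := by
    rw [gam, Finset.mul_sum, Finset.sum_mul, ← Finset.sum_add_distrib]
    refine Finset.sum_congr rfl fun r _ => ?_
    rw [mul_smul_comm, smul_mul_assoc, extOp_mul, one_mul, lv, mul_add, extOp_mul, extOp_mul,
      mul_one, mul_one, ← pow_succ, smul_add, hg]
  have h2 : ∑ r ∈ range (m + 2), (-1 : W.K) ^ r • extOp W (L ^ r) (E * R ^ r * M) =
      ∑ r ∈ range (m + 1), (-(g r) + if r = j then (-1 : W.K) ^ j • extOp W (L ^ (j + 1)) P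
        else 0) := by
    rw [Finset.sum_range_succ', pow_zero, pow_zero, pow_zero, mul_one, hE, extOp_zero_right,
      smul_zero, add_zero]
    refine Finset.sum_congr rfl fun r _ => ?_
    rw [hER r, hg]
    simp only
    have e2 : extOp W (L ^ (r + 1)) (E * R ^ r - if r = j then P else 0) =
        extOp W (L ^ (r + 1)) (E * R ^ r) - extOp W (L ^ (r + 1)) (if r = j then P else 0) := by
      rw [eq_sub_iff_add_eq, ← extOp_add_right, sub_add_cancel]
    rw [e2, smul_sub, pow_succ (-1 : W.K), mul_neg_one, neg_smul, neg_smul, sub_neg_eq_add]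
    congr 1
    split_ifs with h
    · rw [h]
    · rw [extOp_zero_right, smul_zero]
  rw [h1, h2, Finset.sum_range_succ _ (m + 1), Finset.sum_add_distrib, Finset.sum_neg_distrib,
    Finset.sum_ite_eq', if_pos (Finset.mem_range.2 (by omega))]
  have h3 : g (m + 1) = 0 := by
    rw [hg]
    simp only
    rw [hR, mul_zero, extOp_zero_right, smul_zero]
  rw [h3]
  abel

end Main

/-- **Left inverses of the Lefschetz operator of `X × Q`** in the degree `i`, if the variety `Q`
satisfies the conjecture B, from left inverses of powers of the Lefschetz operator of `X`. -/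
theorem exists_left_prod {D : X.Cycles} {h : Q.Cycles} (hD : X.IsCyc 1 D) (hh : Q.IsCyc 1 h)
    (hQL : HardLefschetz W Q h) (hQB : LefschetzB W Q h) {i : ℕ}
    (hθ : ∀ j ≤ Q.dim, ∃ θ, ROp W X (-((j : ℤ) + 1)) θ ∧ (Q.dim + j ≤ i →
      ∀ a ∈ W.gr X (i - (Q.dim + j)), θ ((LinearMap.mulLeft W.K (W.cl X D) ^ (j + 1)) a) = a)) :
    ∃ T, ROp W (X.prod Q) (-1) T ∧ ∀ z ∈ W.gr (X.prod Q) i,
      T (W.cl _ (sumDiv ops D h) * z) = z := by
  obtain ⟨R, hRop, hR⟩ := lefschetzB_iff_rop.1 hQB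
  set L := LinearMap.mulLeft W.K (W.cl X D) with hL
  set M := LinearMap.mulLeft W.K (W.cl Q h) with hM
  set m := Q.dim with hm
  have hMh : IsHom (W.gr Q) 2 M := isHom_mulLeft W hh
  have hint := W.isInternal Q
  have hη : W.cl Q h ∈ W.gr Q (2 * 1) := W.cl_mem hh
  have hlv : LinearMap.mulLeft W.K (W.cl _ (sumDiv ops D h)) = lv L M := by
    rw [cl_sumDiv, mulLeft_sum _ hη]
    rfl
  have hLop : ROp W X 1 L := rop_mulLeft hD
  have hMop : ROp W Q 1 M := rop_mulLeft hh
  have hproj : ∀ s, ROp W Q 0 (proj hint s) := fun s =>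
    rop_opAlg.proj_mem hint W_hbd hMop hQL hRop hR s
  have hone : ROp W X 0 1 := rop_opAlg.one
  have hpm1 : ∀ (r : ℕ) {d : ℤ} {φ : Module.End W.K (W.H (X.prod Q))}, ROp W (X.prod Q) d φ →
      ROp W (X.prod Q) d ((-1 : W.K) ^ r • φ) := by
    intro r d φ hφ
    have := rop_opAlg.smul ((-1 : ℚ) ^ r) hφ
    rwa [Rat.cast_pow, Rat.cast_neg, Rat.cast_one] at this
  have hgam : ROp W (X.prod Q) 0 (gam L R (m + 2)) := rop_opAlg.sum fun r _ => hpm1 r
    (rop_opAlg.cast (rop_ext (rop_opAlg.pow hLop r) (rop_opAlg.pow hRop r)) (by ring))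
  have hgamS : ROp W (X.prod Q) (-1) (gamS L R (m + 2)) := rop_opAlg.sum fun r _ => hpm1 r
    (rop_opAlg.cast (rop_ext (rop_opAlg.pow hLop r) (rop_opAlg.pow hRop (r + 1)))
      (by push_cast; ring))
  have hR0 : R ^ (m + 1) = 0 := rho_top hint hMh W_hbd hQL hR
  have hbot : ∀ j : ℕ, ROp W Q j (bot hint m M R j) := fun j =>
    rop_opAlg.cast (rop_opAlg.mul (rop_opAlg.pow hMop j) (rop_opAlg.mul (hproj (m - j))
      (rop_opAlg.sub rop_opAlg.one (rop_opAlg.cast (rop_opAlg.mul hMop hRop) (by ring)))))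
      (by ring)
  choose! θ hθR hθ' using hθ
  refine ⟨gamS L R (m + 2) + gam L R (m + 2) * ∑ j ∈ range (m + 1), (-1 : W.K) ^ j •
    (extOp W (θ j) 1 * (extOp W 1 (bot hint m M R j) * gam L R (m + 2))), ?_, ?_⟩
  · refine rop_opAlg.add hgamS (rop_opAlg.cast (rop_opAlg.mul hgam (rop_opAlg.sum
      (d := -1) fun j hj => hpm1 j ?_)) (by ring))
    have hjm : j ≤ m := by
      rw [Finset.mem_range] at hj
      omega
    exact rop_opAlg.cast (rop_opAlg.mul (rop_ext (hθR j hjm) rop_opAlg.one)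
      (rop_opAlg.mul (rop_ext hone (hbot j)) hgam)) (by ring)
  · intro z hz
    have e0 : ∀ T : Module.End W.K (W.H (X.prod Q)), T (W.cl _ (sumDiv ops D h) * z) =
        (T * lv L M) z := fun T => by
      rw [Module.End.mul_apply, ← hlv, LinearMap.mulLeft_apply]
    rw [e0, add_mul, gamS_mul L M R (N := m + 2) (by rw [pow_succ, hR0, zero_mul]), mul_assoc,
      Finset.sum_mul]
    have e1 : ∀ j ∈ range (m + 1), (((-1 : W.K) ^ j • (extOp W (θ j) 1 *
        (extOp W 1 (bot hint m M R j) * gam L R (m + 2))) * lv L M :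
          Module.End W.K (W.H (X.prod Q))) z) = extOp W 1 (top hint m M R j) z := by
      intro j hj
      have hjm : j ≤ m := by
        rw [Finset.mem_range] at hj
        omega
      rw [smul_mul_assoc, mul_assoc, bot_gam_mul L M R hjm hR0 (bot_mul hint hMh W_hbd hQL hR j)
        (bot_rho hint hMh W_hbd hQL hR hjm), mul_smul_comm, smul_smul, ← mul_pow, neg_mul_neg,
        one_mul, one_pow, one_smul, extOp_mul, one_mul]
      exact ext_eq (top_mul_proj hint j) (fun hs a ha => by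
        rw [Module.End.mul_apply]
        exact hθ' j hjm hs a ha) hz
    rw [LinearMap.add_apply, LinearMap.sub_apply, Module.End.one_apply, Module.End.mul_apply,
      Module.End.mul_apply, LinearMap.sum_apply, Finset.sum_congr rfl e1, ← LinearMap.sum_apply,
      ← extOp_sum', sum_top hint hMh W_hbd hQL hR, sub_add_cancel]

end Pool.Agent.N190.GS
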