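import Pool.Agent.N190.GS.Sec

/-!
# Partial traces of rational correspondences
-/

set_option autoImplicit false

open CategoryTheory AlgebraicGeometry Finset

universe u v

namespace Pool.Agent.N190.GS

open Pool.Agent.H914 Pool.Agent.H447 Pool.Agent.N190.CB Pool.Agent.N190.AM Pool.Agent.TH720.LB
  Pool.Agent.W534 VarClass Obj WeilCohomology

variable {k : Type u} [Field k] {𝒱 : VarClass k} {ops : CycleOps 𝒱}
  {k' : Type u} [Field k'] {𝒱' : VarClass k'} {ops' : CycleOps 𝒱'}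
  {W : WeilCohomology.{u, v} ops} {W' : WeilCohomology.{u, v} ops'} {V X Q : 𝒱.Obj} {Z : 𝒱'.Obj}

/-- The trace form is nondegenerate. -/
lemma eq_zero_of_trace {K U : Type*} [Field K] [AddCommGroup U] [Module K U] [Module.Finite K U]
    {C : Module.End K U} (h : ∀ E : Module.End K U, LinearMap.trace K U (C * E) = 0) : C = 0 := by
  apply LinearMap.ext
  intro v
  rw [LinearMap.zero_apply]
  refine (Module.forall_dual_apply_eq_zero_iff K _).1 fun φ => ?_
  have h1 := h (dualTensorHom K U U (φ ⊗ₜ v))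
  have e : C * dualTensorHom K U U (φ ⊗ₜ v) = dualTensorHom K U U (φ ⊗ₜ C v) := by
    apply LinearMap.ext
    intro m
    rw [Module.End.mul_apply, dualTensorHom_apply, dualTensorHom_apply, map_smul]
  rw [e, LinearMap.trace_eq_contract_apply, contractLeft_apply] at h1
  exact h1

lemma eq_zero_of_str {C : Module.End W.K (W.H X)}
    (h : ∀ E : Module.End W.K (W.H X), str W X (C * E) = 0) : C = 0 := by
  have h1 : par (W.isInternal X) * C = 0 := eq_zero_of_trace fun E => by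
    rw [mul_assoc]
    exact h E
  have h2 : par (W.isInternal X) * (par (W.isInternal X) * C) = 0 := by rw [h1, mul_zero]
  rwa [← mul_assoc, par_mul_par, one_mul] at h2

/-- **The partial trace over the second factor is algebraic.** -/
theorem rop_ptrace {d e : ℤ} {A : Module.End W.K (W.H (X.prod Q))}
    (hA : ROp W (X.prod Q) d A) {ψ : Module.End W.K (W.H Q)} (hψ : ROp W Q e ψ) :
    ∃ T, ROp W X (d + e) T ∧ ∀ φ : Module.End W.K (W.H X),
      str W (X.prod Q) (A * extOp W φ ψ) = str W X (T * φ) := by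
  rcases rop_iff.1 hA with ⟨p, hp, z, hz, rfl⟩ | ⟨-, rfl⟩
  swap
  · exact ⟨0, rop_opAlg.zero _, fun φ => by rw [zero_mul, zero_mul, map_zero, map_zero]⟩
  rcases rop_iff.1 hψ with ⟨s, hs, w, hw, rfl⟩ | ⟨-, rfl⟩
  swap
  · exact ⟨0, rop_opAlg.zero _, fun φ => by
      rw [extOp_zero_right, mul_zero, zero_mul, map_zero, map_zero]⟩
  rw [dim_prod] at hp
  push_cast at hp
  by_cases hm : 2 * Q.dim ≤ p + s
  · obtain ⟨m, hm⟩ := Nat.exists_eq_add_of_le hm
    have hcyc : ((X.prod Q).prod (X.prod Q)).IsCyc (p + s)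
        (ops.mul z (ops.pull (q2 X Q) (ops.pull (swap Q Q) w))) :=
      ops.mul_mem hz (ops.pull_mem _ (ops.pull_mem _ hw))
    have hpush := ops.push_mem (q1 X Q) (q := m) hcyc
      (by simp only [dim_prod]; omega)
    refine ⟨_, rop_corr (d := d + e) (by omega) hpush, fun φ => ?_⟩
    obtain ⟨f, rfl⟩ := (corr_bijective (W := W) (X := X)).2 φ
    rw [W.cl_push, W.cl_mul, W.cl_pull, W.cl_pull]
    exact str_ext_left (W.cl_mem hz) f (W.cl_mem hw) (m := m) (by omega)
  · refine ⟨0, rop_opAlg.zero _, fun φ => ?_⟩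
    obtain ⟨f, rfl⟩ := (corr_bijective (W := W) (X := X)).2 φ
    have hw' : W.map (q2 X Q) (W.map (swap Q Q) (W.cl _ w)) ∈ W.gr _ (2 * s) :=
      W.map_mem _ (W.map_mem _ (W.cl_mem hw))
    have h0 : W.push (q1 X Q) (W.cl _ z * W.map (q2 X Q) (W.map (swap Q Q) (W.cl _ w))) = 0 :=
      push_eq_zero _ (W.mul_mem (W.cl_mem hz) hw')
        (by simp only [dim_prod]; push_cast; omega)
    change str W (X.prod Q) (W.corr (W.cl _ z) * extOp W (W.corr f) (W.corr (W.cl _ w))) = _
    rw [str_ext (W.cl_mem hz) f (W.cl_mem hw), ← W.even_comm hw', ← mul_assoc, ← W.tr_push,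
      h0, zero_mul, zero_mul, map_zero, map_zero]

/-- If `A (L ⊗ ψ) = L' ⊗ ψ'` then the partial trace of `A` composed with `L` is a multiple of
`L'`. -/
theorem exists_ptrace_mul {d e : ℤ} {A : Module.End W.K (W.H (X.prod Q))}
    (hA : ROp W (X.prod Q) d A) {ψ : Module.End W.K (W.H Q)} (hψ : ROp W Q e ψ)
    {ψ' : Module.End W.K (W.H Q)} {e' : ℤ} (hψ' : ROp W Q e' ψ')
    {L L' : Module.End W.K (W.H X)} (h : A * extOp W L ψ = extOp W L' ψ') :
    ∃ T, ROp W X (d + e) T ∧ T * L = str W Q ψ' • L' := by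
  obtain ⟨T, hT, hTt⟩ := rop_ptrace hA hψ
  refine ⟨T, hT, ?_⟩
  rw [← sub_eq_zero]
  apply eq_zero_of_str
  intro E
  rw [sub_mul, map_sub, mul_assoc, ← hTt, smul_mul_assoc, map_smul, smul_eq_mul, sub_eq_zero]
  have h1 : extOp W (L * E) ψ = extOp W L ψ * extOp W E 1 := by rw [extOp_mul, mul_one]
  rw [h1, ← mul_assoc, h, extOp_mul, mul_one]
  obtain ⟨f, hf⟩ := (corr_bijective (W := W) (X := X)).2 (L' * E)
  change W.corr f = L' * E at hf
  rcases rop_iff.1 hψ' with ⟨s, hs, w, hw, rfl⟩ | ⟨-, rfl⟩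
  · rw [← hf, str_extOp f (W.cl_mem hw), mul_comm]
  · rw [extOp_zero_right, map_zero, map_zero, zero_mul]

end Pool.Agent.N190.GS
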